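import Pool.Agent.FS.FewQuads.B

set_option autoImplicit false

namespace Pool.Agent.Results.MP_8cb124_co.FewQuadrilaterals

/-- For n ≥ 43: let G be a finite simple graph whose degrees are all at most 4 or all at least 4
and which has at most n cycles of length four (each is counted by 8 ordered quadruples). If G has
the chromatic polynomial of the square of the n-cycle, then it is isomorphic to it. -/
theorem result :
    ∀ n : ℕ, 43 ≤ n → ∀ (V : Type) [Finite V] (G : SimpleGraph V),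
      ((∀ v, (G.neighborSet v).ncard ≤ 4) ∨ ∀ v, 4 ≤ (G.neighborSet v).ncard) →
      {x : V × V × V × V | G.Adj x.1 x.2.1 ∧ G.Adj x.2.1 x.2.2.1 ∧ G.Adj x.2.2.1 x.2.2.2 ∧
        G.Adj x.2.2.2 x.1 ∧ x.1 ≠ x.2.2.1 ∧ x.2.1 ≠ x.2.2.2}.ncard ≤ 8 * n →
      (∀ k : ℕ, Nat.card (G.Coloring (Fin k)) =
        Nat.card ((SimpleGraph.fromRel
          (fun i j : ZMod n => j - i = 1 ∨ j - i = 2)).Coloring (Fin k))) →
      Nonempty (G ≃g SimpleGraph.fromRel (fun i j : ZMod n => j - i = 1 ∨ j - i = 2)) :=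
  fun _ hn V _ G g1 g2 h => Pool.Agent.FS.FewQuads.core hn V G g1 g2 h

end Pool.Agent.Results.MP_8cb124_co.FewQuadrilaterals
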