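import Pool.Agent.Lib.MP_8cb124_co.Main

namespace Pool.Agent.Results.MP_8cb124_co.K4Free

/-- For n ≥ 43: if 3 divides n, or if G has no K4, then a finite simple graph G with the same
chromatic polynomial as the square of the n-cycle is isomorphic to it. -/
theorem result :
    ∀ n : ℕ, 43 ≤ n → ∀ (V : Type) [Finite V] (G : SimpleGraph V),
      (3 ∣ n ∨ G.CliqueFree 4) →
      (∀ k : ℕ, Nat.card (G.Coloring (Fin k)) =
        Nat.card ((SimpleGraph.fromRel
          (fun i j : ZMod n => j - i = 1 ∨ j - i = 2)).Coloring (Fin k))) →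
      Nonempty (G ≃g SimpleGraph.fromRel (fun i j : ZMod n => j - i = 1 ∨ j - i = 2)) :=
  fun _ hn V _ G hK h => Pool.Agent.Lib.MP_8cb124_co.main hn V G hK h

end Pool.Agent.Results.MP_8cb124_co.K4Free
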