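import Pool.Agent.FS.FourHole.D

namespace Pool.Agent.Results.MP_8cb124_co.LightFourCycles

/-- For n ≥ 43: let G be a finite simple graph in which every induced 4-cycle p q r s has
a + 2 b + 6 c ≤ 4, where a counts the outside vertices adjacent to two opposite vertices of the
cycle, b the vertices adjacent to at least three of its vertices and c those adjacent to all four.
If G has the chromatic polynomial of the square of the n-cycle, then it is isomorphic to it. -/
theorem result :
    ∀ n : ℕ, 43 ≤ n → ∀ (V : Type) [Finite V] (G : SimpleGraph V),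
      (∀ p q r s : V, G.Adj p q → G.Adj q r → G.Adj r s → G.Adj s p → p ≠ r → q ≠ s →
        ¬ G.Adj p r → ¬ G.Adj q s →
        {w | w ∉ ({p, q, r, s} : Set V) ∧
            ((G.Adj w p ∧ G.Adj w r) ∨ (G.Adj w q ∧ G.Adj w s))}.ncard +
          2 * {w | 3 ≤ (({p, q, r, s} : Set V) ∩ G.neighborSet w).ncard}.ncard +
          6 * {w | 4 ≤ (({p, q, r, s} : Set V) ∩ G.neighborSet w).ncard}.ncard ≤ 4) →
      (∀ k : ℕ, Nat.card (G.Coloring (Fin k)) =
        Nat.card ((SimpleGraph.fromRel
          (fun i j : ZMod n => j - i = 1 ∨ j - i = 2)).Coloring (Fin k))) →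
      Nonempty (G ≃g SimpleGraph.fromRel (fun i j : ZMod n => j - i = 1 ∨ j - i = 2)) :=
  fun _ hn V _ G hG h => Pool.Agent.FS.FourHole.core hn V G hG h

end Pool.Agent.Results.MP_8cb124_co.LightFourCycles
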