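import Pool.Agent.FS.RegMate.B

namespace Pool.Agent.Results.MP_8cb124_co.TransitiveMates

/-- For n ≥ 43: let G be a finite simple graph that is vertex-transitive, or whose degrees are all
at most 4 or all at least 4 and whose vertices all lie in at most 3 or all in at least 3 triangles
(a triangle at v is counted twice, as an ordered pair of adjacent neighbours of v). If G has the
chromatic polynomial of the square of the n-cycle, then it is isomorphic to it. -/
theorem result :
    ∀ n : ℕ, 43 ≤ n → ∀ (V : Type) [Finite V] (G : SimpleGraph V),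
      ((∀ u v : V, ∃ φ : G ≃g G, φ u = v) ∨
        (((∀ v, (G.neighborSet v).ncard ≤ 4) ∨ ∀ v, 4 ≤ (G.neighborSet v).ncard) ∧
          ((∀ v, {x : V × V | G.Adj v x.1 ∧ G.Adj v x.2 ∧ G.Adj x.1 x.2}.ncard ≤ 6) ∨
            ∀ v, 6 ≤ {x : V × V | G.Adj v x.1 ∧ G.Adj v x.2 ∧ G.Adj x.1 x.2}.ncard))) →
      (∀ k : ℕ, Nat.card (G.Coloring (Fin k)) =
        Nat.card ((SimpleGraph.fromRel
          (fun i j : ZMod n => j - i = 1 ∨ j - i = 2)).Coloring (Fin k))) →
      Nonempty (G ≃g SimpleGraph.fromRel (fun i j : ZMod n => j - i = 1 ∨ j - i = 2)) :=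
  fun _ hn V _ G hG h => Pool.Agent.FS.RegMate.core hn V G hG h

end Pool.Agent.Results.MP_8cb124_co.TransitiveMates
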